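import Pool.Agent.N70.PP.Stm2

/-!
# PROJECT PP, task BCHP: base change of regular solutions in any characteristic

After Pool.Agent.N455.EP (Bch), Pool.Agent.Y241.WR (Ext) and Pool.Agent.Y793.E (characteristic zero).
-/

set_option autoImplicit false

set_option maxHeartbeats 1000000
set_option linter.unusedSectionVars false

namespace Pool.Agent.N297.PP

open Polynomial
open Pool.Agent.H391R2.T4 (RegSol)
open Pool.Agent.N70.EP (Ext2)

/-- In a normal extension, two embeddings of a field are conjugate. -/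
theorem exists_aut_of_algHom {F K₁ N : Type} [Field F] [Field K₁] [Field N] [Algebra F K₁]
    [Algebra F N] [Normal F N] (α β : K₁ →ₐ[F] N) : ∃ γ : N ≃ₐ[F] N, ∀ x, γ (α x) = β x := by
  let χ : α.fieldRange ≃ₐ[F] β.fieldRange :=
    (AlgEquiv.ofInjectiveField α).symm.trans (AlgEquiv.ofInjectiveField β)
  refine ⟨AlgEquiv.liftNormal χ N, fun x => ?_⟩
  have h1 := AlgEquiv.liftNormal_commutes χ N (⟨α x, ⟨x, rfl⟩⟩ : α.fieldRange)
  have h2 : χ (⟨α x, ⟨x, rfl⟩⟩ : α.fieldRange) = (⟨β x, ⟨x, rfl⟩⟩ : β.fieldRange) := by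
    have h3 : (AlgEquiv.ofInjectiveField α).symm (⟨α x, ⟨x, rfl⟩⟩ : α.fieldRange) = x :=
      (AlgEquiv.ofInjectiveField α).symm_apply_apply x
    have h4 : χ (⟨α x, ⟨x, rfl⟩⟩ : α.fieldRange) = (AlgEquiv.ofInjectiveField β)
      ((AlgEquiv.ofInjectiveField α).symm (⟨α x, ⟨x, rfl⟩⟩ : α.fieldRange)) := rfl
    exact h4.trans (congrArg (AlgEquiv.ofInjectiveField β) h3)
  rw [h2] at h1
  exact h1

/-- Automorphisms of a field extend to an algebraically closed extension. -/
theorem ext_ring {E N : Type} [Field E] [Field N] [IsAlgClosed N] [Algebra E N] (σ : E ≃+* E) :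
    ∃ τ : N ≃+* N, ∀ x : E, τ (algebraMap E N x) = algebraMap E N (σ x) := by
  obtain ⟨s, hs⟩ := exists_isTranscendenceBasis E N
  let A := Algebra.adjoin E (Set.range ((↑) : s → N))
  have hA : IsAlgClosure A N := IsAlgClosed.isAlgClosure_of_transcendence_basis _ hs
  let e0 : MvPolynomial s E ≃+* MvPolynomial s E := MvPolynomial.mapEquiv s σ
  let e1 : MvPolynomial s E ≃ₐ[E] A := hs.1.aevalEquiv
  let e : A ≃+* A := e1.symm.toRingEquiv.trans (e0.trans e1.toRingEquiv)
  refine ⟨IsAlgClosure.equivOfEquiv N N e, fun x => ?_⟩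
  have h1 : e (algebraMap E A x) = algebraMap E A (σ x) := by
    change e1 (e0 (e1.symm (algebraMap E A x))) = _
    rw [AlgEquiv.commutes]
    have : e0 (algebraMap E (MvPolynomial s E) x) = algebraMap E (MvPolynomial s E) (σ x) := by
      change MvPolynomial.map (σ : E →+* E) (MvPolynomial.C x) = MvPolynomial.C (σ x)
      rw [MvPolynomial.map_C]
      rfl
    rw [this, AlgEquiv.commutes]
  have h2 := IsAlgClosure.equivOfEquiv_algebraMap N N e (algebraMap E A x)
  rw [h1] at h2
  exact h2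

/-- Two embeddings of an algebraic extension into an algebraically closed field are conjugate. -/
theorem surj {k L N : Type} [Field k] [Field L] [Field N] [IsAlgClosed N] [Algebra k L]
    [Algebra k N] [Algebra.IsAlgebraic k L] (α β : L →ₐ[k] N) :
    ∃ τ : N ≃ₐ[k] N, ∀ x, τ (α x) = β x := by
  have hcl : IsAlgClosure k (algebraicClosure k N) := inferInstance
  have hn : Normal k (algebraicClosure k N) := IsAlgClosure.normal k _
  let α' : L →ₐ[k] algebraicClosure k N := α.codRestrict (algebraicClosure k N).toSubalgebra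
    (fun x => mem_algebraicClosure_iff.2 ((Algebra.IsAlgebraic.isAlgebraic x).algHom α))
  let β' : L →ₐ[k] algebraicClosure k N := β.codRestrict (algebraicClosure k N).toSubalgebra
    (fun x => mem_algebraicClosure_iff.2 ((Algebra.IsAlgebraic.isAlgebraic x).algHom β))
  obtain ⟨γ, hγ⟩ := exists_aut_of_algHom α' β'
  obtain ⟨τ, hτ⟩ := ext_ring (N := N) (γ : algebraicClosure k N ≃+* algebraicClosure k N)
  refine ⟨AlgEquiv.ofRingEquiv (f := τ) (fun r => ?_), fun x => ?_⟩
  · have h1 := hτ (algebraMap k (algebraicClosure k N) r)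
    have h2 : (γ : algebraicClosure k N ≃+* algebraicClosure k N)
      (algebraMap k (algebraicClosure k N) r) = algebraMap k (algebraicClosure k N) r :=
      γ.commutes r
    rw [h2] at h1
    exact h1
  · have h1 := hτ (α' x)
    have h2 : (γ : algebraicClosure k N ≃+* algebraicClosure k N) (α' x) = β' x := hγ x
    rw [h2] at h1
    exact h1

/-- Roots of an irreducible polynomial are conjugate. -/
theorem conj_root {k N : Type} [Field k] [Field N] [IsAlgClosed N] [Algebra k N] {x y : N}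
    (p : k[X]) (hp : Irreducible p) (hx : aeval x p = 0) (hy : aeval y p = 0) :
    ∃ τ : N ≃ₐ[k] N, τ x = y := by
  have : Fact (Irreducible p) := ⟨hp⟩
  have hfin : Module.Finite k (AdjoinRoot p) := (AdjoinRoot.powerBasis hp.ne_zero).finite
  obtain ⟨τ, hτ⟩ := surj (AdjoinRoot.liftAlgHom p (Algebra.ofId k N) x hx)
    (AdjoinRoot.liftAlgHom p (Algebra.ofId k N) y hy)
  have h1 := hτ (AdjoinRoot.root p)
  have e1 : AdjoinRoot.liftAlgHom p (Algebra.ofId k N) x hx (AdjoinRoot.root p) = x :=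
    AdjoinRoot.liftAlgHom_root _ _ _ _
  have e2 : AdjoinRoot.liftAlgHom p (Algebra.ofId k N) y hy (AdjoinRoot.root p) = y :=
    AdjoinRoot.liftAlgHom_root _ _ _ _
  exact ⟨τ, (congrArg τ e1).symm.trans (h1.trans e2)⟩

/-- A separable element fixed by all automorphisms is in the base field. -/
theorem fixedS {k N : Type} [Field k] [Field N] [IsAlgClosed N] [Algebra k N] (x : N)
    (hx : IsSeparable k x) (h : ∀ τ : N ≃ₐ[k] N, τ x = x) : x ∈ Set.range (algebraMap k N) := by
  have hint : IsIntegral k x := hx.isIntegral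
  have hsep : (minpoly k x).Separable := hx
  have hcard : Fintype.card ((minpoly k x).rootSet N) = (minpoly k x).natDegree :=
    card_rootSet_eq_natDegree hsep (IsAlgClosed.splits _)
  have hsub : ∀ y ∈ (minpoly k x).rootSet N, y = x := by
    intro y hy
    have hy' : aeval y (minpoly k x) = 0 := (mem_rootSet.1 hy).2
    obtain ⟨τ, hτ⟩ := conj_root _ (minpoly.irreducible hint) (minpoly.aeval k x) hy'
    rw [h τ] at hτ
    exact hτ.symm
  have hss : Subsingleton ((minpoly k x).rootSet N) :=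
    ⟨fun a b => Subtype.ext ((hsub a a.2).trans (hsub b b.2).symm)⟩
  have hle : (minpoly k x).natDegree ≤ 1 := by
    rw [← hcard]
    exact Fintype.card_le_one_iff_subsingleton.2 hss
  have h1 : (minpoly k x).natDegree = 1 := le_antisymm hle (minpoly.natDegree_pos hint)
  exact minpoly.natDegree_eq_one_iff.1 h1

theorem sep_pow {k N : Type} [Field k] [Field N] [Algebra k N] (q : ℕ) [ExpChar k q] (x : N)
    (hx : IsAlgebraic k x) : ∃ n, IsSeparable k (x ^ q ^ n) := by
  have hirr := minpoly.irreducible hx.isIntegral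
  obtain ⟨g, hg, n, hn⟩ := hirr.hasSeparableContraction q
  refine ⟨n, ?_⟩
  have h1 : aeval (x ^ q ^ n) g = 0 := by
    have h2 := minpoly.aeval k x
    rw [← hn, expand_aeval] at h2
    exact h2
  exact hg.of_dvd (minpoly.dvd k _ h1)

theorem mem_of_pow {k L : Type} [Field k] [Field L] [Algebra k L] (q : ℕ) [ExpChar k q] (z : L)
    (hz : IsSeparable k z) (n : ℕ) (h : z ^ q ^ n ∈ (algebraMap k L).range) :
    z ∈ Set.range (algebraMap k L) := by
  have h1 : (minpoly k z).natSepDegree = 1 :=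
    (minpoly.natSepDegree_eq_one_iff_pow_mem q).2 ⟨n, h⟩
  have h2 : (minpoly k z).natSepDegree = (minpoly k z).natDegree :=
    Polynomial.Separable.natSepDegree_eq_natDegree hz
  exact minpoly.natDegree_eq_one_iff.1 (h2 ▸ h1)

theorem sep_map {k B B' : Type} [Field k] [Field B] [Field B'] [Algebra k B] [Algebra B B']
    [Algebra k B'] [IsScalarTower k B B'] {x : B} (h : IsSeparable k x) :
    IsSeparable k (algebraMap B B' x) := by
  unfold IsSeparable at *
  rwa [minpoly.algebraMap_eq (algebraMap B B').injective]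

section Desc

variable {K N : Type} [Field K] [Field N] [Algebra K N]

attribute [local instance] Polynomial.algebra in
/-- Elements of `F(s)` integral over `K[s]` are polynomials in `s` with coefficients integral
over `K`. -/
theorem coeff_int (F : IntermediateField K N) (s : N) (hs : Transcendental F s) (y : N)
    (hy : y ∈ IntermediateField.adjoin F {s}) (p : K[X][X]) (hp : p.Monic)
    (hpy : eval₂ (aeval s : K[X] →ₐ[K] N).toRingHom y p = 0) :
    ∃ f : F[X], (∀ i, IsIntegral K (f.coeff i)) ∧ aeval s f = y := by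
  let ψ : RatFunc F →+* N := (IntermediateField.adjoin F {s}).val.toRingHom.comp
    (RatFunc.algEquivOfTranscendental s hs).toRingEquiv.toRingHom
  have hψ : ∀ g : F[X], ψ (algebraMap F[X] (RatFunc F) g) = aeval s g := by
    intro g
    change ((RatFunc.algEquivOfTranscendental s hs (algebraMap F[X] (RatFunc F) g) :
      IntermediateField.adjoin F {s}) : N) = _
    rw [RatFunc.algEquivOfTranscendental_algebraMap]
    exact (aeval_algHom_apply (IntermediateField.adjoin F {s}).val
      (IntermediateField.AdjoinSimple.gen F s) g).symm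
  set r : RatFunc F := (RatFunc.algEquivOfTranscendental s hs).symm ⟨y, hy⟩ with hr
  have hψr : ψ r = y := by
    change ((RatFunc.algEquivOfTranscendental s hs ((RatFunc.algEquivOfTranscendental s hs).symm
      ⟨y, hy⟩) : IntermediateField.adjoin F {s}) : N) = y
    rw [AlgEquiv.apply_symm_apply]
  let g : K[X] →+* RatFunc F := (algebraMap F[X] (RatFunc F)).comp (mapRingHom (algebraMap K F))
  have hψg : ψ.comp g = (aeval s : K[X] →ₐ[K] N).toRingHom := by
    apply Polynomial.ringHom_ext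
    · intro c
      change ψ (algebraMap F[X] (RatFunc F) (mapRingHom (algebraMap K F) (C c))) = aeval s (C c)
      rw [hψ, coe_mapRingHom, map_C, aeval_C, aeval_C]
      rfl
    · change ψ (algebraMap F[X] (RatFunc F) (mapRingHom (algebraMap K F) X)) = aeval s X
      rw [hψ, coe_mapRingHom, map_X, aeval_X, aeval_X]
  have h1 : eval₂ g r p = 0 := by
    apply ψ.injective
    rw [hom_eval₂, hψg, hψr, hpy, map_zero]
  have h2 : IsIntegral F[X] r := by
    refine ⟨p.map (mapRingHom (algebraMap K F)), hp.map _, ?_⟩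
    rw [eval₂_map]
    exact h1
  obtain ⟨f, hf⟩ := IsIntegrallyClosed.isIntegral_iff.1 h2
  have h3 : eval₂ (mapRingHom (algebraMap K F)) f p = 0 := by
    apply IsFractionRing.injective F[X] (RatFunc F)
    rw [hom_eval₂, hf, map_zero]
    exact h1
  have h4 : IsIntegral K[X] f := ⟨p, hp, h3⟩
  refine ⟨f, fun i => h4.coeff i, ?_⟩
  rw [← hψ, hf, hψr]

variable [IsAlgClosed N] {L : Type} [Field L] [Algebra L N] [Algebra (RatFunc K) L]
  [Algebra (RatFunc K) N] [IsScalarTower (RatFunc K) L N] [IsScalarTower K (RatFunc K) N]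
  [Algebra K L] [IsScalarTower K (RatFunc K) L] [Algebra.IsAlgebraic (RatFunc K) L]

/-- Descent: for a regular extension `L` of `K` algebraic over `K(s)`, and `s` transcendental over
`F`, the intersection of `L` with `F(s)` is `K(s)`. -/
theorem desc [Algebra.IsSeparable (RatFunc K) L] (hreg : ∀ y : L, IsAlgebraic K y → y ∈ Set.range (algebraMap K L))
    (F : IntermediateField K N) (s : N) (hs' : algebraMap (RatFunc K) N RatFunc.X = s)
    (hs : Transcendental F s) (y : L)
    (hy : algebraMap L N y ∈ IntermediateField.adjoin F {s}) :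
    y ∈ Set.range (algebraMap (RatFunc K) L) := by
  have hKL : IsScalarTower K L N := by
    refine IsScalarTower.of_algebraMap_eq fun x => ?_
    rw [IsScalarTower.algebraMap_apply K (RatFunc K) N,
      IsScalarTower.algebraMap_apply (RatFunc K) L N,
      ← IsScalarTower.algebraMap_apply K (RatFunc K) L]
  let _ : Algebra K[X] L := ((algebraMap (RatFunc K) L).comp (algebraMap K[X] (RatFunc K))).toAlgebra
  have : IsScalarTower K[X] (RatFunc K) L := .of_algebraMap_eq fun _ => rfl
  have hy1 : IsAlgebraic K[X] y := (IsFractionRing.isAlgebraic_iff K[X] (RatFunc K) L).2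
    (Algebra.IsAlgebraic.isAlgebraic y)
  obtain ⟨c, hc, p, hp, hpy⟩ := hy1.exists_integral_multiple
  have hcomp : (algebraMap L N).comp (algebraMap K[X] L) = (aeval s : K[X] →ₐ[K] N).toRingHom := by
    apply Polynomial.ringHom_ext
    · intro a
      change algebraMap L N (algebraMap (RatFunc K) L (algebraMap K[X] (RatFunc K) (C a))) =
        aeval s (C a)
      rw [aeval_C, ← IsScalarTower.algebraMap_apply (RatFunc K) L N,
        IsScalarTower.algebraMap_apply K (RatFunc K) N]
      rfl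
    · change algebraMap L N (algebraMap (RatFunc K) L (algebraMap K[X] (RatFunc K) X)) =
        aeval s X
      rw [aeval_X, ← IsScalarTower.algebraMap_apply (RatFunc K) L N, RatFunc.algebraMap_X, hs']
  have hcomp' : ∀ q : K[X], algebraMap L N (algebraMap K[X] L q) = aeval s q := fun q =>
    RingHom.congr_fun hcomp q
  have hpy' : eval₂ (aeval s : K[X] →ₐ[K] N).toRingHom (algebraMap L N (c • y)) p = 0 := by
    rw [← hcomp, ← hom_eval₂, hpy, map_zero]
  have hmem : algebraMap L N (c • y) ∈ IntermediateField.adjoin F {s} := by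
    rw [Algebra.smul_def, map_mul, hcomp']
    refine mul_mem ?_ hy
    rw [aeval_eq_sum_range]
    refine sum_mem fun i _ => ?_
    rw [Algebra.smul_def]
    refine mul_mem ?_ (pow_mem (IntermediateField.mem_adjoin_simple_self F s) i)
    exact (IntermediateField.adjoin F {s}).algebraMap_mem (algebraMap K F (c.coeff i))
  obtain ⟨f, hf, hfy⟩ := coeff_int F s hs _ hmem p hp hpy'
  -- the coefficients come from `K`
  have hsK : Transcendental (algebraicClosure K N) s := by
    intro h
    exact hs ((h.restrictScalars K).tower_top F)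
  obtain ⟨q, hq⟩ := ExpChar.exists K
  have hqL : ExpChar L q := expChar_of_injective_algebraMap (algebraMap K L).injective q
  have hqN : ExpChar N q := expChar_of_injective_algebraMap (algebraMap K N).injective q
  have hqR : ExpChar (RatFunc K) q :=
    expChar_of_injective_algebraMap (algebraMap K (RatFunc K)).injective q
  have hco : ∀ i, ∃ n, ∀ m ≥ n, ∃ a : K, algebraMap K N a = (f.coeff i : N) ^ q ^ m := by
    intro i
    have hia : ∀ j, IsAlgebraic K (f.coeff j : N) := fun j =>
      (hf j).isAlgebraic.algHom F.val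
    obtain ⟨n, hn⟩ := sep_pow (k := L) q (f.coeff i : N) ((hia i).tower_top L)
    have h1 : (f.coeff i : N) ^ q ^ n ∈ Set.range (algebraMap L N) := by
      refine fixedS _ hn fun τ => ?_
      rw [map_pow]
      congr 1
      let τK : N →ₐ[K] N := (τ.restrictScalars K : N ≃ₐ[K] N)
      have hmemc : ∀ j, τ (f.coeff j : N) - (f.coeff j : N) ∈ algebraicClosure K N := by
        intro j
        refine sub_mem ?_ (mem_algebraicClosure_iff.2 (hia j))
        exact mem_algebraicClosure_iff.2 ((hia j).algHom τK)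
      let D : (algebraicClosure K N)[X] := ∑ j ∈ Finset.range (f.natDegree + 1),
        monomial j (⟨_, hmemc j⟩ : algebraicClosure K N)
      have hD : aeval s D = 0 := by
        have h2 : τ (algebraMap L N (c • y)) = algebraMap L N (c • y) := τ.commutes _
        have h3 : τ s = s := by
          rw [← hs', IsScalarTower.algebraMap_apply (RatFunc K) L N, τ.commutes]
        rw [← hfy, aeval_eq_sum_range, map_sum] at h2
        rw [map_sum]
        simp only [aeval_monomial]
        have h4 : ∀ j, τ (f.coeff j • s ^ j) = τ (f.coeff j : N) * s ^ j := by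
          intro j
          rw [Algebra.smul_def, map_mul, map_pow, h3]
          rfl
        simp only [h4] at h2
        have h5 : ∀ j, (algebraMap (algebraicClosure K N) N) ⟨_, hmemc j⟩ * s ^ j =
            τ (f.coeff j : N) * s ^ j - f.coeff j • s ^ j := by
          intro j
          rw [Algebra.smul_def]
          exact sub_mul _ _ _
        simp only [h5]
        rw [Finset.sum_sub_distrib, h2, sub_self]
      have hD0 : D = 0 := by
        by_contra hne
        exact hsK ⟨D, hne, hD⟩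
      by_cases hi : i ∈ Finset.range (f.natDegree + 1)
      · have h2 := congrArg (fun q => coeff q i) hD0
        simp only [D, finsetSum_coeff, coeff_monomial, coeff_zero] at h2
        rw [Finset.sum_ite_eq' (Finset.range (f.natDegree + 1)) i] at h2
        rw [if_pos hi] at h2
        exact sub_eq_zero.1 (congrArg Subtype.val h2)
      · rw [coeff_eq_zero_of_natDegree_lt (by simpa using hi)]
        exact map_zero τ
    obtain ⟨l, hl⟩ := h1
    have h2 : IsAlgebraic K l := by
      have h3 : IsAlgebraic K ((f.coeff i : N) ^ q ^ n) := (hia i).pow _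
      rw [← hl] at h3
      exact (isAlgebraic_algebraMap_iff (algebraMap L N).injective).1 h3
    obtain ⟨a, rfl⟩ := hreg l h2
    refine ⟨n, fun m hm => ⟨a ^ q ^ (m - n), ?_⟩⟩
    rw [map_pow, IsScalarTower.algebraMap_apply K L N, hl, ← pow_mul, ← pow_add,
      Nat.add_sub_cancel' hm]
  choose n hn using hco
  obtain ⟨m, hm⟩ : ∃ m, ∀ i ∈ Finset.range (f.natDegree + 1), n i ≤ m :=
    ⟨∑ i ∈ Finset.range (f.natDegree + 1), n i, fun i hi =>
      Finset.single_le_sum (f := n) (fun _ _ => Nat.zero_le _) hi⟩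
  have hco' : ∀ i, ∃ a : K, i ∈ Finset.range (f.natDegree + 1) →
      algebraMap K N a = (f.coeff i : N) ^ q ^ m := by
    intro i
    by_cases hi : i ∈ Finset.range (f.natDegree + 1)
    · obtain ⟨a, ha⟩ := hn i m (hm i hi)
      exact ⟨a, fun _ => ha⟩
    · exact ⟨0, fun h => absurd h hi⟩
  choose a ha using hco'
  have hfin : (c • y) ^ q ^ m = algebraMap K[X] L (∑ i ∈ Finset.range (f.natDegree + 1),
      monomial (i * q ^ m) (a i)) := by
    apply (algebraMap L N).injective
    rw [hcomp', map_pow, ← hfy, aeval_eq_sum_range, ← iterateFrobenius_def, map_sum, map_sum]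
    refine Finset.sum_congr rfl fun i hi => ?_
    rw [aeval_monomial, ha i hi, iterateFrobenius_def, Algebra.smul_def, mul_pow, ← pow_mul]
    rfl
  obtain ⟨v, hv⟩ := mem_of_pow (k := RatFunc K) q (c • y)
    (Algebra.IsSeparable.isSeparable (RatFunc K) (c • y)) m
    ⟨algebraMap K[X] (RatFunc K) (∑ i ∈ Finset.range (f.natDegree + 1),
      monomial (i * q ^ m) (a i)), hfin.symm⟩
  refine ⟨v / algebraMap K[X] (RatFunc K) c, ?_⟩
  have hc' : algebraMap K[X] L c ≠ 0 := by
    have h1 : algebraMap K[X] (RatFunc K) c ≠ 0 :=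
      (map_ne_zero_iff _ (IsFractionRing.injective K[X] (RatFunc K))).2 hc
    exact (map_ne_zero (algebraMap (RatFunc K) L)).2 h1
  rw [map_div₀, hv]
  change c • y / algebraMap K[X] L c = y
  rw [Algebra.smul_def, mul_div_cancel_left₀ _ hc']

/-- Automorphisms of a regular Galois extension `L` of `K(s)` are induced by automorphisms
over `F`. -/
theorem ext_gal [FiniteDimensional (RatFunc K) L] [IsGalois (RatFunc K) L]
    (hreg : ∀ y : L, IsAlgebraic K y → y ∈ Set.range (algebraMap K L))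
    (F : IntermediateField K N) (s : N) (hs' : algebraMap (RatFunc K) N RatFunc.X = s)
    (hs : Transcendental F s) (γ : L ≃ₐ[RatFunc K] L) :
    ∃ τ : N ≃ₐ[F] N, ∀ z : L, τ (algebraMap L N z) = algebraMap L N (γ z) := by
  have hpoly : ∀ q : K[X], algebraMap (RatFunc K) N (algebraMap K[X] (RatFunc K) q) ∈
      IntermediateField.adjoin F {s} := by
    intro q
    have hcomp : (algebraMap (RatFunc K) N).comp (algebraMap K[X] (RatFunc K)) =
        (aeval s : K[X] →ₐ[K] N).toRingHom := by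
      apply Polynomial.ringHom_ext
      · intro a
        change algebraMap (RatFunc K) N (algebraMap K[X] (RatFunc K) (C a)) = aeval s (C a)
        rw [aeval_C, IsScalarTower.algebraMap_apply K (RatFunc K) N]
        rfl
      · change algebraMap (RatFunc K) N (algebraMap K[X] (RatFunc K) X) = aeval s X
        rw [aeval_X, RatFunc.algebraMap_X, hs']
    have h1 : algebraMap (RatFunc K) N (algebraMap K[X] (RatFunc K) q) = aeval s q :=
      RingHom.congr_fun hcomp q
    rw [h1, aeval_eq_sum_range]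
    refine sum_mem fun i _ => ?_
    rw [Algebra.smul_def]
    refine mul_mem ?_ (pow_mem (IntermediateField.mem_adjoin_simple_self F s) i)
    exact (IntermediateField.adjoin F {s}).algebraMap_mem (algebraMap K F (q.coeff i))
  have hE : ∀ r : RatFunc K, algebraMap (RatFunc K) N r ∈ IntermediateField.adjoin F {s} := by
    intro r
    rw [← RatFunc.num_div_denom r, map_div₀]
    exact div_mem (hpoly _) (hpoly _)
  let S : Subgroup (N ≃ₐ[RatFunc K] N) :=
    { carrier := {τ | ∀ x ∈ IntermediateField.adjoin F {s}, τ x = x}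
      one_mem' := fun x _ => rfl
      mul_mem' := fun {a b} ha hb x hx => by
        rw [AlgEquiv.mul_apply, hb x hx, ha x hx]
      inv_mem' := fun {a} ha x hx => by
        have h1 : a⁻¹ (a x) = x := a.symm_apply_apply x
        rw [ha x hx] at h1
        exact h1 }
  let H : Subgroup (L ≃ₐ[RatFunc K] L) :=
    S.map (AlgEquiv.restrictNormalHom (F := RatFunc K) (K₁ := N) L)
  have hfix : IntermediateField.fixedField H = ⊥ := by
    rw [eq_bot_iff]
    intro y hy
    rw [IntermediateField.mem_fixedField_iff] at hy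
    have h1 : algebraMap L N y ∈ IntermediateField.adjoin F {s} := by
      let j : RatFunc K →+* IntermediateField.adjoin F {s} :=
        (algebraMap (RatFunc K) N).codRestrict (IntermediateField.adjoin F {s}) hE
      let _ : Algebra (RatFunc K) (IntermediateField.adjoin F {s}) := j.toAlgebra
      have : IsScalarTower (RatFunc K) (IntermediateField.adjoin F {s}) N :=
        .of_algebraMap_eq fun _ => rfl
      have halg : IsSeparable (IntermediateField.adjoin F {s}) (algebraMap L N y) :=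
        (sep_map (k := RatFunc K) (B' := N)
          (Algebra.IsSeparable.isSeparable (RatFunc K) y)).tower_top
            (IntermediateField.adjoin F {s})
      obtain ⟨z, hz⟩ := fixedS (k := IntermediateField.adjoin F {s}) (N := N) (algebraMap L N y)
        halg (fun τ => by
          let τ' : N ≃ₐ[RatFunc K] N := AlgEquiv.ofRingEquiv (f := (τ : N ≃+* N)) (fun r =>
            τ.commutes (⟨algebraMap (RatFunc K) N r, hE r⟩ : IntermediateField.adjoin F {s}))
          have hτ' : τ' ∈ S := fun x hx =>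
            τ.commutes (⟨x, hx⟩ : IntermediateField.adjoin F {s})
          have h2 := hy (AlgEquiv.restrictNormalHom L τ') ⟨τ', hτ', rfl⟩
          have h3 := AlgEquiv.restrictNormal_commutes τ' L y
          have h4 : τ'.restrictNormal L y = y := h2
          rw [h4] at h3
          exact h3.symm)
      rw [← hz]
      exact z.2
    rw [IntermediateField.mem_bot]
    exact desc hreg F s hs' hs y h1
  have htop : H = ⊤ := by
    rw [← IntermediateField.fixingSubgroup_fixedField H, hfix, IntermediateField.fixingSubgroup_bot]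
  have hγ : γ ∈ H := by rw [htop]; trivial
  obtain ⟨τ, hτ, hτγ⟩ := hγ
  refine ⟨AlgEquiv.ofRingEquiv (f := (τ : N ≃+* N)) (fun x =>
    hτ _ ((IntermediateField.adjoin F {s}).algebraMap_mem x)), fun z => ?_⟩
  have h1 := AlgEquiv.restrictNormal_commutes τ L z
  have h2 : τ.restrictNormal L = γ := hτγ
  rw [h2] at h1
  exact h1.symm

end Desc

theorem ratFunc_hom_ext {K U : Type} [Field K] [Field U] (f g : RatFunc K →+* U)
    (hC : ∀ k, f (algebraMap K (RatFunc K) k) = g (algebraMap K (RatFunc K) k))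
    (hX : f RatFunc.X = g RatFunc.X) : f = g := by
  apply IsLocalization.ringHom_ext (nonZeroDivisors K[X])
  apply Polynomial.ringHom_ext
  · intro k
    simp only [RingHom.comp_apply]
    exact hC k
  · simp only [RingHom.comp_apply, RatFunc.algebraMap_X]
    exact hX

/-- Rational functions evaluated at a transcendental element. -/
theorem ratHom {A M : Type} [Field A] [Field M] (ι : A →+* M) (s : M)
    (hs : ∀ p : A[X], eval₂ ι s p = 0 → p = 0) :
    ∃ Φ : RatFunc A →+* M, (∀ a, Φ (algebraMap A (RatFunc A) a) = ι a) ∧ Φ RatFunc.X = s := by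
  let ev : A[X] →+* M := eval₂RingHom ι s
  have hev : Function.Injective ev := by
    rw [injective_iff_map_eq_zero]
    intro p hp
    exact hs p hp
  let φ : RatFunc A →+* M := IsFractionRing.lift (A := A[X]) hev
  have hφ : ∀ p, φ (algebraMap A[X] (RatFunc A) p) = ev p := fun p =>
    IsFractionRing.lift_algebraMap hev p
  refine ⟨φ, fun a => ?_, ?_⟩
  · have h1 : algebraMap A (RatFunc A) a = algebraMap A[X] (RatFunc A) (Polynomial.C a) := rfl
    rw [h1, hφ]
    change eval₂ ι s (C a) = _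
    rw [eval₂_C]
  · rw [← RatFunc.algebraMap_X, hφ]
    change eval₂ ι s X = _
    rw [eval₂_X]

theorem ratFunc_alg {A : Type} [Field A] (y : RatFunc A) (hy : IsAlgebraic A y) :
    y ∈ Set.range (algebraMap A (RatFunc A)) := by
  by_contra hcon
  refine RatFunc.transcendental_of_ne_C y ?_ hy
  rintro ⟨c, hc⟩
  exact hcon ⟨c, hc.symm⟩

theorem geo {L L₁ F N : Type} [Field L] [Field L₁] [Algebra L L₁] [Field F]
    [Algebra (RatFunc L) F] [Algebra L F] [IsScalarTower L (RatFunc L) F]
    [FiniteDimensional (RatFunc L) F] [IsGalois (RatFunc L) F] [Field N] [IsAlgClosed N]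
    [Algebra L₁ N] [Algebra L N] [IsScalarTower L L₁ N] [Algebra (RatFunc L) N]
    [IsScalarTower L (RatFunc L) N] [Algebra F N] [IsScalarTower (RatFunc L) F N]
    (hreg : ∀ y : F, IsAlgebraic L y → y ∈ Set.range (algebraMap L F))
    (hs : Transcendental L₁ (algebraMap (RatFunc L) N RatFunc.X))
    (γ : F ≃ₐ[RatFunc L] F) :
    ∃ τ : N ≃ₐ[L₁] N, (∀ x : N, IsAlgebraic L₁ x → τ x = x) ∧
      ∀ z, τ (algebraMap F N z) = algebraMap F N (γ z) := by
  let C : IntermediateField L N := (algebraicClosure L₁ N).restrictScalars L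
  have hmem : ∀ x : N, IsAlgebraic L₁ x → x ∈ C := by
    intro x hx
    change x ∈ algebraicClosure L₁ N
    exact mem_algebraicClosure_iff.2 hx
  have hsC : Transcendental C (algebraMap (RatFunc L) N RatFunc.X) := hs.algebraicClosure
  obtain ⟨τ, hτ⟩ := ext_gal (K := L) (N := N) (L := F) hreg C
    (algebraMap (RatFunc L) N RatFunc.X) rfl hsC γ
  have hfix : ∀ x : N, IsAlgebraic L₁ x → τ x = x := fun x hx =>
    τ.commutes (⟨x, hmem x hx⟩ : C)
  refine ⟨AlgEquiv.ofRingEquiv (f := (τ : N ≃+* N)) (fun r => ?_), ?_, ?_⟩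
  · exact hfix _ (isAlgebraic_algebraMap r)
  · exact hfix
  · exact hτ

theorem exists_ratL {K L F : Type} [Field K] [Field L] [Algebra K L] [FiniteDimensional K L]
    [Field F] [Algebra (RatFunc K) F] [Algebra L F] [Algebra K F]
    [IsScalarTower K (RatFunc K) F] [IsScalarTower K L F] [FiniteDimensional (RatFunc K) F]
    [IsGalois (RatFunc K) F] :
    ∃ (_ : Algebra (RatFunc K) (RatFunc L)) (_ : Algebra (RatFunc L) F),
      IsScalarTower L (RatFunc L) F ∧ IsScalarTower (RatFunc K) (RatFunc L) F ∧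
      FiniteDimensional (RatFunc L) F ∧ IsGalois (RatFunc L) F ∧
      (∀ p : K[X], algebraMap (RatFunc K) (RatFunc L) (algebraMap K[X] (RatFunc K) p) =
        algebraMap L[X] (RatFunc L) (p.map (algebraMap K L))) := by
  let TX : F := algebraMap (RatFunc K) F RatFunc.X
  have hTXK : Transcendental K TX := by
    have h1 : Transcendental K (RatFunc.X : RatFunc K) := by
      rw [← RatFunc.algebraMap_X]
      exact (transcendental_algebraMap_iff (IsFractionRing.injective K[X] (RatFunc K))).2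
        (Polynomial.transcendental_X K)
    exact (transcendental_algebraMap_iff (algebraMap (RatFunc K) F).injective).2 h1
  have hTX : Transcendental L TX := hTXK.extendScalars L
  let ev : L[X] →+* F := ((Polynomial.aeval TX : L[X] →ₐ[L] F) : L[X] →+* F)
  have hev : Function.Injective ev := transcendental_iff_injective.1 hTX
  let φ : RatFunc L →+* F := IsFractionRing.lift (A := L[X]) hev
  have hφ : ∀ p, φ (algebraMap L[X] (RatFunc L) p) = ev p := fun p =>
    IsFractionRing.lift_algebraMap hev p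
  have hφC : ∀ l : L, φ (algebraMap L (RatFunc L) l) = algebraMap L F l := by
    intro l
    have h1 : algebraMap L (RatFunc L) l = algebraMap L[X] (RatFunc L) (Polynomial.C l) := rfl
    rw [h1, hφ]
    change Polynomial.aeval TX (Polynomial.C l) = _
    rw [Polynomial.aeval_C]
  have hφX : φ RatFunc.X = TX := by
    rw [← RatFunc.algebraMap_X, hφ]
    change Polynomial.aeval TX Polynomial.X = _
    rw [Polynomial.aeval_X]
  -- the inclusion of `K(X)` in `L(X)`
  let bc : K[X] →+* RatFunc L := (algebraMap L[X] (RatFunc L)).comp (mapRingHom (algebraMap K L))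
  have hbc : Function.Injective bc := by
    rw [RingHom.coe_comp]
    exact (IsFractionRing.injective L[X] (RatFunc L)).comp
      (Polynomial.map_injective _ (algebraMap K L).injective)
  let κ : RatFunc K →+* RatFunc L := IsFractionRing.lift (A := K[X]) hbc
  have hκ : ∀ p, κ (algebraMap K[X] (RatFunc K) p) = bc p := fun p =>
    IsFractionRing.lift_algebraMap hbc p
  have hφκ : φ.comp κ = algebraMap (RatFunc K) F := by
    apply ratFunc_hom_ext
    · intro k
      simp only [RingHom.comp_apply]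
      have h1 : algebraMap K (RatFunc K) k = algebraMap K[X] (RatFunc K) (Polynomial.C k) := rfl
      rw [h1, hκ]
      change φ (algebraMap L[X] (RatFunc L) (mapRingHom (algebraMap K L) (Polynomial.C k))) = _
      rw [coe_mapRingHom, Polynomial.map_C, hφ]
      change Polynomial.aeval TX (Polynomial.C (algebraMap K L k)) = _
      rw [Polynomial.aeval_C, ← h1, ← IsScalarTower.algebraMap_apply K (RatFunc K) F,
        ← IsScalarTower.algebraMap_apply K L F]
    · simp only [RingHom.comp_apply]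
      rw [← RatFunc.algebraMap_X, hκ]
      change φ (algebraMap L[X] (RatFunc L) (mapRingHom (algebraMap K L) Polynomial.X)) = _
      rw [coe_mapRingHom, Polynomial.map_X, RatFunc.algebraMap_X, hφX, RatFunc.algebraMap_X]
  let i1 : Algebra (RatFunc L) F := φ.toAlgebra
  let i2 : Algebra (RatFunc K) (RatFunc L) := κ.toAlgebra
  have t1 : IsScalarTower L (RatFunc L) F := IsScalarTower.of_algebraMap_eq fun l => (hφC l).symm
  have t2 : IsScalarTower (RatFunc K) (RatFunc L) F := IsScalarTower.of_algebraMap_eq fun y =>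
    (RingHom.congr_fun hφκ y).symm
  exact ⟨i2, i1, t1, t2, FiniteDimensional.right (RatFunc K) (RatFunc L) F,
    IsGalois.tower_top_of_isGalois (RatFunc K) (RatFunc L) F, hκ⟩

section gal

variable {K L Z : Type} [Field K] [Field L] [Algebra K L] [Field Z]
  [Algebra (RatFunc K) Z] [Algebra L Z] [Algebra K Z] [IsScalarTower K (RatFunc K) Z]
  [IsScalarTower K L Z] [Algebra (RatFunc K) (RatFunc L)] [Algebra (RatFunc L) Z]
  [IsScalarTower (RatFunc K) (RatFunc L) Z] [IsScalarTower L (RatFunc L) Z]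
  (hp : ∀ p : K[X], algebraMap (RatFunc K) (RatFunc L) (algebraMap K[X] (RatFunc K) p) =
        algebraMap L[X] (RatFunc L) (p.map (algebraMap K L)))
  (π : (Z ≃ₐ[RatFunc K] Z) →* (L ≃ₐ[K] L))
  (hπ : ∀ (σ : Z ≃ₐ[RatFunc K] Z) (x : L), σ (algebraMap L Z x) = algebraMap L Z (π σ x))

include hp hπ

theorem lift_ker (γ : Z ≃ₐ[RatFunc K] Z) (hγ : π γ = 1) :
    ∃ γ' : Z ≃ₐ[RatFunc L] Z, ∀ z, γ' z = γ z := by
  have h1 : ((γ : Z →+* Z).comp (algebraMap (RatFunc L) Z)) = algebraMap (RatFunc L) Z := by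
    apply ratFunc_hom_ext
    · intro l
      simp only [RingHom.comp_apply]
      rw [← IsScalarTower.algebraMap_apply L (RatFunc L) Z]
      change γ (algebraMap L Z l) = _
      rw [hπ, hγ]
      rfl
    · simp only [RingHom.comp_apply]
      have h2 : (RatFunc.X : RatFunc L) = algebraMap (RatFunc K) (RatFunc L) RatFunc.X := by
        rw [← RatFunc.algebraMap_X, ← RatFunc.algebraMap_X, hp, map_X]
      rw [h2, ← IsScalarTower.algebraMap_apply]
      exact γ.commutes _
  exact ⟨AlgEquiv.ofRingEquiv (f := γ.toRingEquiv) (fun q => RingHom.congr_fun h1 q),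
    fun _ => rfl⟩


end gal

section gen

variable {k k₁ F N : Type} [Field k] [Field F] [Algebra k F]
  [FiniteDimensional k F] [IsGalois k F] [Field k₁] [Algebra k k₁] [Field N] [IsAlgClosed N]
  [Algebra k N] [Algebra F N] [IsScalarTower k F N] [Algebra k₁ N] [IsScalarTower k k₁ N]

/-- Automorphisms restrict to normal extensions. -/
theorem res1 (τ : N ≃ₐ[k₁] N) : ∃ g : F ≃ₐ[k] F, ∀ z, τ (algebraMap F N z) =
    algebraMap F N (g z) := by
  refine ⟨(τ.restrictScalars k).restrictNormal F, fun z => ?_⟩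
  exact (AlgEquiv.restrictNormal_commutes (τ.restrictScalars k) F z).symm

variable (k₁ F N) in
/-- The field generated by `k₁` and `F`. -/
noncomputable def F1 : IntermediateField k₁ N :=
  IntermediateField.adjoin k₁ (Set.range (algebraMap F N))

theorem mem_F1 (z : F) : algebraMap F N z ∈ F1 k₁ F N :=
  IntermediateField.subset_adjoin k₁ _ ⟨z, rfl⟩

theorem eq_F1 {τ τ' : N ≃ₐ[k₁] N} (h : ∀ z : F, τ (algebraMap F N z) = τ' (algebraMap F N z))
    (y : N) (hy : y ∈ F1 k₁ F N) : τ y = τ' y := by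
  unfold F1 at hy
  induction hy using IntermediateField.adjoin_induction with
  | mem x hx =>
    obtain ⟨z, rfl⟩ := hx
    exact h z
  | algebraMap x => rw [τ.commutes, τ'.commutes]
  | add x y _ _ hx hy => rw [map_add, map_add, hx, hy]
  | inv x _ hx => rw [map_inv₀, map_inv₀, hx]
  | mul x y _ _ hx hy => rw [map_mul, map_mul, hx, hy]

include k in
theorem act_F1 (τ : N ≃ₐ[k₁] N) (y : N) (hy : y ∈ F1 k₁ F N) : τ y ∈ F1 k₁ F N := by
  have h1 : F1 k₁ F N ≤ (F1 k₁ F N).comap (τ : N →ₐ[k₁] N) := by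
    refine IntermediateField.adjoin_le_iff.2 ?_
    rintro _ ⟨z, rfl⟩
    obtain ⟨g, hg⟩ := res1 (k := k) (F := F) τ
    change τ (algebraMap F N z) ∈ F1 k₁ F N
    rw [hg]
    exact mem_F1 _
  exact h1 hy

include k in
theorem fd_F1 : FiniteDimensional k₁ (F1 k₁ F N) := by
  obtain ⟨θ, hθ⟩ := Field.exists_primitive_element k F
  have h1 : F1 k₁ F N ≤ IntermediateField.adjoin k₁ {algebraMap F N θ} := by
    refine IntermediateField.adjoin_le_iff.2 ?_
    rintro _ ⟨z, rfl⟩
    let S : IntermediateField k F :=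
      ((IntermediateField.adjoin k₁ {algebraMap F N θ}).restrictScalars k).comap
        (IsScalarTower.toAlgHom k F N)
    have h2 : (⊤ : IntermediateField k F) ≤ S := by
      rw [← hθ]
      refine IntermediateField.adjoin_le_iff.2 ?_
      rintro _ rfl
      exact IntermediateField.mem_adjoin_simple_self k₁ (algebraMap F N _)
    exact h2 (IntermediateField.mem_top (x := z))
  have h3 : IsIntegral k₁ (algebraMap F N θ) := by
    have h4 : IsIntegral k (algebraMap F N θ) := (Algebra.IsIntegral.isIntegral (R := k) θ).algebraMap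
    exact h4.tower_top
  have h5 := IntermediateField.adjoin.finiteDimensional h3
  exact FiniteDimensional.of_injective (IntermediateField.inclusion h1).toLinearMap
    (IntermediateField.inclusion h1).injective

include k in
theorem norm_F1 : Normal k₁ (F1 k₁ F N) := by
  have hfd : FiniteDimensional k₁ (F1 k₁ F N) := fd_F1 (k := k)
  rw [normal_iff]
  intro x
  have hx : IsIntegral k₁ x := Algebra.IsIntegral.isIntegral x
  refine ⟨hx, Splits.of_splits_map (algebraMap (F1 k₁ F N) N) (IsAlgClosed.splits _)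
    fun y hy => ?_⟩
  have hyr : aeval y (minpoly k₁ x) = 0 := by
    rw [mem_roots', IsRoot.def, Polynomial.map_map,
      ← IsScalarTower.algebraMap_eq, eval_map_algebraMap] at hy
    exact hy.2
  have hxr : aeval (algebraMap (F1 k₁ F N) N x) (minpoly k₁ x) = 0 := by
    rw [aeval_algebraMap_apply, minpoly.aeval, map_zero]
  obtain ⟨τ, hτ⟩ := conj_root _ (minpoly.irreducible hx) hxr hyr
  exact ⟨⟨τ (x : N), act_F1 (k := k) τ x x.2⟩, hτ⟩

include k in
theorem gal_F1 : IsGalois k₁ (F1 k₁ F N) := by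
  have hfd : FiniteDimensional k₁ (F1 k₁ F N) := fd_F1 (k := k)
  have hn : Normal k₁ (F1 k₁ F N) := norm_F1 (k := k)
  have hs : Algebra.IsSeparable k₁ (F1 k₁ F N) := by
    unfold F1
    rw [IntermediateField.isSeparable_adjoin_iff_isSeparable]
    rintro _ ⟨z, rfl⟩
    exact (sep_map (k := k) (B' := N) (Algebra.IsSeparable.isSeparable k z)).tower_top k₁
  exact ⟨⟩

include k in
theorem lift_F1 (σ : F1 k₁ F N ≃ₐ[k₁] F1 k₁ F N) : ∃ τ : N ≃ₐ[k₁] N, ∀ x : F1 k₁ F N,
    τ (x : N) = (σ x : N) := by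
  have hfd : FiniteDimensional k₁ (F1 k₁ F N) := fd_F1 (k := k)
  obtain ⟨τ, hτ⟩ := surj ((F1 k₁ F N).val)
    ((F1 k₁ F N).val.comp (σ : F1 k₁ F N →ₐ[k₁] F1 k₁ F N))
  exact ⟨τ, hτ⟩

include k in
theorem res_F1 (τ : N ≃ₐ[k₁] N) : ∃ σ : F1 k₁ F N ≃ₐ[k₁] F1 k₁ F N, ∀ x : F1 k₁ F N,
    τ (x : N) = (σ x : N) := by
  have hn : Normal k₁ (F1 k₁ F N) := norm_F1 (k := k)
  refine ⟨τ.restrictNormal (F1 k₁ F N), fun x => ?_⟩
  exact (AlgEquiv.restrictNormal_commutes τ (F1 k₁ F N) x).symm

theorem exists_rho : ∃ ρ : (F1 k₁ F N ≃ₐ[k₁] F1 k₁ F N) →* (F ≃ₐ[k] F),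
    Function.Injective ρ ∧ ∀ σ (z : F), ((σ ⟨algebraMap F N z, mem_F1 z⟩ : F1 k₁ F N) : N) =
      algebraMap F N (ρ σ z) := by
  have hex : ∀ σ : F1 k₁ F N ≃ₐ[k₁] F1 k₁ F N, ∃ g : F ≃ₐ[k] F, ∀ z : F,
      ((σ ⟨algebraMap F N z, mem_F1 z⟩ : F1 k₁ F N) : N) = algebraMap F N (g z) := by
    intro σ
    obtain ⟨τ, hτ⟩ := lift_F1 (k := k) σ
    obtain ⟨g, hg⟩ := res1 (k := k) (F := F) τ
    exact ⟨g, fun z => by rw [← hτ, ← hg]⟩
  choose ρ hρ using hex
  refine ⟨MonoidHom.mk' ρ fun a b => ?_, ?_, hρ⟩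
  · apply AlgEquiv.ext
    intro z
    apply (algebraMap F N).injective
    rw [← hρ, AlgEquiv.mul_apply, AlgEquiv.mul_apply, ← hρ]
    congr 2
    apply Subtype.ext
    exact hρ b z
  · intro a b hab
    have hab' : ρ a = ρ b := hab
    obtain ⟨τ, hτ⟩ := lift_F1 (k := k) a
    obtain ⟨τ', hτ'⟩ := lift_F1 (k := k) b
    apply AlgEquiv.ext
    intro y
    apply Subtype.ext
    rw [← hτ, ← hτ']
    refine eq_F1 (k₁ := k₁) (F := F) (N := N) (τ := τ) (τ' := τ') (fun z => ?_) (y : N) y.2
    have h1 := hτ ⟨algebraMap F N z, mem_F1 z⟩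
    have h2 := hτ' ⟨algebraMap F N z, mem_F1 z⟩
    rw [hρ] at h1 h2
    rw [hab'] at h1
    exact h1.trans h2.symm

end gen

/-- An automorphism fixing `L₁` and the variable is an automorphism over `K₁(t)`. -/
theorem up {K₁ L₁ N : Type} [Field K₁] [Field L₁] [Field N] [Algebra K₁ L₁]
    [Algebra (RatFunc K₁) N] [Algebra K₁ N] [IsScalarTower K₁ (RatFunc K₁) N] [Algebra L₁ N]
    [IsScalarTower K₁ L₁ N] (τ : N ≃ₐ[L₁] N)
    (h : τ (algebraMap (RatFunc K₁) N RatFunc.X) = algebraMap (RatFunc K₁) N RatFunc.X) :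
    ∃ τ' : N ≃ₐ[RatFunc K₁] N, ∀ x, τ' x = τ x := by
  have h1 : (τ : N →+* N).comp (algebraMap (RatFunc K₁) N) = algebraMap (RatFunc K₁) N := by
    apply ratFunc_hom_ext
    · intro k
      simp only [RingHom.comp_apply]
      rw [← IsScalarTower.algebraMap_apply K₁ (RatFunc K₁) N,
        IsScalarTower.algebraMap_apply K₁ L₁ N]
      exact τ.commutes _
    · exact h
  exact ⟨AlgEquiv.ofRingEquiv (f := (τ : N ≃+* N)) (fun r => RingHom.congr_fun h1 r), fun _ => rfl⟩

/-- Automorphisms of the constants extend. -/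
theorem ari {K₁ L₁ N : Type} [Field K₁] [Field L₁] [Field N] [IsAlgClosed N] [Algebra K₁ L₁]
    [Algebra (RatFunc K₁) N] [Algebra K₁ N] [IsScalarTower K₁ (RatFunc K₁) N] [Algebra L₁ N]
    [IsScalarTower K₁ L₁ N] [Algebra (RatFunc L₁) N] [IsScalarTower L₁ (RatFunc L₁) N]
    (hX : algebraMap (RatFunc K₁) N RatFunc.X = algebraMap (RatFunc L₁) N RatFunc.X)
    (h : L₁ ≃ₐ[K₁] L₁) :
    ∃ τ : N ≃ₐ[RatFunc K₁] N, ∀ x, τ (algebraMap L₁ N x) = algebraMap L₁ N (h x) := by
  have hex : ∀ g : L₁ ≃ₐ[K₁] L₁, ∃ Φ : RatFunc L₁ →+* RatFunc L₁,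
      (∀ a, Φ (algebraMap L₁ (RatFunc L₁) a) = algebraMap L₁ (RatFunc L₁) (g a)) ∧
      Φ RatFunc.X = RatFunc.X := by
    intro g
    refine ratHom ((algebraMap L₁ (RatFunc L₁)).comp (g : L₁ →+* L₁)) RatFunc.X ?_
    intro p hp
    rw [← eval₂_map] at hp
    have h1 : aeval (RatFunc.X : RatFunc L₁) (p.map (g : L₁ →+* L₁)) = 0 := hp
    have h2 : Transcendental L₁ (RatFunc.X : RatFunc L₁) := by
      rw [← RatFunc.algebraMap_X]
      exact (transcendental_algebraMap_iff (IsFractionRing.injective L₁[X] (RatFunc L₁))).2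
        (Polynomial.transcendental_X L₁)
    have h3 : p.map (g : L₁ →+* L₁) = 0 := (transcendental_iff.1 h2) _ h1
    exact (Polynomial.map_eq_zero_iff (f := (g : L₁ →+* L₁)) g.injective).1 h3
  obtain ⟨Φ, hΦ, hΦX⟩ := hex h
  obtain ⟨Ψ, hΨ, hΨX⟩ := hex h.symm
  have e1 : Φ.comp Ψ = RingHom.id _ := by
    apply ratFunc_hom_ext
    · intro k
      rw [RingHom.comp_apply, hΨ, hΦ, h.apply_symm_apply, RingHom.id_apply]
    · rw [RingHom.comp_apply, hΨX, hΦX, RingHom.id_apply]
  have e2 : Ψ.comp Φ = RingHom.id _ := by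
    apply ratFunc_hom_ext
    · intro k
      rw [RingHom.comp_apply, hΦ, hΨ, h.symm_apply_apply, RingHom.id_apply]
    · rw [RingHom.comp_apply, hΦX, hΨX, RingHom.id_apply]
  obtain ⟨τ, hτ⟩ := ext_ring (N := N) (RingEquiv.ofRingHom Φ Ψ e1 e2)
  have hτ' : ∀ x : RatFunc L₁, τ (algebraMap (RatFunc L₁) N x) = algebraMap (RatFunc L₁) N (Φ x) :=
    hτ
  have hτL : ∀ x : L₁, τ (algebraMap L₁ N x) = algebraMap L₁ N (h x) := by
    intro x
    rw [IsScalarTower.algebraMap_apply L₁ (RatFunc L₁) N, hτ', hΦ,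
      ← IsScalarTower.algebraMap_apply L₁ (RatFunc L₁) N]
  have h1 : (τ : N →+* N).comp (algebraMap (RatFunc K₁) N) = algebraMap (RatFunc K₁) N := by
    apply ratFunc_hom_ext
    · intro k
      simp only [RingHom.comp_apply]
      rw [← IsScalarTower.algebraMap_apply K₁ (RatFunc K₁) N,
        IsScalarTower.algebraMap_apply K₁ L₁ N]
      change τ (algebraMap L₁ N (algebraMap K₁ L₁ k)) = _
      rw [hτL, h.commutes]
    · simp only [RingHom.comp_apply]
      rw [hX]
      change τ (algebraMap (RatFunc L₁) N RatFunc.X) = _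
      rw [hτ', hΦX]
  exact ⟨AlgEquiv.ofRingEquiv (f := τ) (fun r => RingHom.congr_fun h1 r), hτL⟩

theorem eval_inj {A L₁ N : Type} [Field A] [Field L₁] [Field N] [Algebra A L₁] [Algebra L₁ N]
    {s : N} (hs : Transcendental L₁ s) (p : A[X])
    (hp : eval₂ ((algebraMap L₁ N).comp (algebraMap A L₁)) s p = 0) : p = 0 := by
  rw [← eval₂_map] at hp
  have h1 : aeval s (p.map (algebraMap A L₁)) = 0 := hp
  have h3 := (transcendental_iff.1 hs) _ h1
  exact (Polynomial.map_eq_zero_iff (algebraMap A L₁).injective).1 h3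

/-- Elements algebraic over `L₁` fixed by the automorphisms over `L₁(t)`. -/
theorem fixL {K₁ L₁ N : Type} [Field K₁] [Field L₁] [Algebra K₁ L₁] [Field N] [IsAlgClosed N]
    [Algebra (RatFunc K₁) N] [Algebra K₁ N] [IsScalarTower K₁ (RatFunc K₁) N]
    [Algebra L₁ N] [IsScalarTower K₁ L₁ N] [Algebra (RatFunc L₁) N]
    [IsScalarTower L₁ (RatFunc L₁) N]
    (hX : algebraMap (RatFunc K₁) N RatFunc.X = algebraMap (RatFunc L₁) N RatFunc.X) (x : N)
    (hx : IsAlgebraic L₁ x) (hsep : IsSeparable (RatFunc K₁) x)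
    (h : ∀ τ : N ≃ₐ[L₁] N, τ (algebraMap (RatFunc L₁) N RatFunc.X) =
      algebraMap (RatFunc L₁) N RatFunc.X → τ x = x) : x ∈ Set.range (algebraMap L₁ N) := by
  have hXt : Transcendental L₁ (RatFunc.X : RatFunc L₁) := by
    rw [← RatFunc.algebraMap_X]
    exact (transcendental_algebraMap_iff (IsFractionRing.injective L₁[X] (RatFunc L₁))).2
      (Polynomial.transcendental_X L₁)
  obtain ⟨j, hja, hjX⟩ := ratHom ((algebraMap L₁ (RatFunc L₁)).comp (algebraMap K₁ L₁)) _
    (fun p hp => eval_inj hXt p hp)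
  have hcomp : (algebraMap (RatFunc L₁) N).comp j = algebraMap (RatFunc K₁) N := by
    apply ratFunc_hom_ext
    · intro k
      rw [RingHom.comp_apply, hja, RingHom.comp_apply,
        ← IsScalarTower.algebraMap_apply L₁ (RatFunc L₁) N,
        ← IsScalarTower.algebraMap_apply K₁ L₁ N,
        ← IsScalarTower.algebraMap_apply K₁ (RatFunc K₁) N]
    · rw [RingHom.comp_apply, hjX, hX]
  let iA : Algebra (RatFunc K₁) (RatFunc L₁) := j.toAlgebra
  have iT : IsScalarTower (RatFunc K₁) (RatFunc L₁) N :=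
    .of_algebraMap_eq fun z => (RingHom.congr_fun hcomp z).symm
  obtain ⟨y, rfl⟩ := fixedS (k := RatFunc L₁) x (hsep.tower_top (RatFunc L₁)) (fun τ => by
    refine h (τ.restrictScalars L₁) ?_
    exact τ.commutes _)
  have h1 : IsAlgebraic L₁ y :=
    (isAlgebraic_algebraMap_iff (algebraMap (RatFunc L₁) N).injective).1 hx
  obtain ⟨a, rfl⟩ := ratFunc_alg y h1
  exact ⟨a, IsScalarTower.algebraMap_apply L₁ (RatFunc L₁) N a⟩

theorem core {K L K₁ L₁ F N : Type} [Field K] [Field L] [Algebra K L]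
    [Field K₁] [Field L₁] [Algebra K₁ L₁] [FiniteDimensional K₁ L₁]
    [IsGalois K₁ L₁] [Algebra K K₁] [Algebra L L₁] (f : (L₁ ≃ₐ[K₁] L₁) ≃* (L ≃ₐ[K] L))
    (hE : Ext2 K L K₁ L₁ f) [Field F] [Algebra (RatFunc K) F] [Algebra L F]
    [FiniteDimensional (RatFunc K) F] [IsGalois (RatFunc K) F] {E : Type} [Group E]
    (α : E →* (L ≃ₐ[K] L)) (γ : (F ≃ₐ[RatFunc K] F) ≃* E)
    (hγ : ∀ (σ : F ≃ₐ[RatFunc K] F) (x : L), σ (algebraMap L F x) =
      algebraMap L F (α (γ σ) x))
    [Field N] [IsAlgClosed N] [Algebra (RatFunc K) (RatFunc K₁)] [Algebra (RatFunc K) N]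
    [Algebra F N] [IsScalarTower (RatFunc K) F N] [Algebra (RatFunc K₁) N]
    [IsScalarTower (RatFunc K) (RatFunc K₁) N] [Algebra K₁ N] [IsScalarTower K₁ (RatFunc K₁) N]
    [Algebra L₁ N] [IsScalarTower K₁ L₁ N] [Algebra (RatFunc L₁) N]
    [IsScalarTower L₁ (RatFunc L₁) N]
    (c1 : ∀ x : L, algebraMap F N (algebraMap L F x) = algebraMap L₁ N (algebraMap L L₁ x))
    (c2 : algebraMap (RatFunc K₁) N RatFunc.X = algebraMap F N (algebraMap (RatFunc K) F RatFunc.X))
    (c3 : algebraMap (RatFunc K₁) N RatFunc.X = algebraMap (RatFunc L₁) N RatFunc.X)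
    (hgeo : ∀ g : F ≃ₐ[RatFunc K] F, α (γ g) = 1 → ∃ τ : N ≃ₐ[L₁] N,
      (∀ x : N, IsAlgebraic L₁ x → τ x = x) ∧ ∀ z : F, τ (algebraMap F N z) =
        algebraMap F N (g z)) :
    RegSol K₁ L₁ E ((f.symm : (L ≃ₐ[K] L) →* (L₁ ≃ₐ[K₁] L₁)).comp α) := by
  -- T2
  have T2 : ∀ τ : N ≃ₐ[RatFunc K₁] N, ∃ h : L₁ ≃ₐ[K₁] L₁, ∀ x, τ (algebraMap L₁ N x) =
      algebraMap L₁ N (h x) := fun τ => res1 (k := K₁) (F := L₁) τ
  have T1 : ∀ τ : N ≃ₐ[RatFunc K₁] N, ∃ g : F ≃ₐ[RatFunc K] F, ∀ z, τ (algebraMap F N z) =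
      algebraMap F N (g z) := fun τ => res1 (k := RatFunc K) (F := F) τ
  have T3 : ∀ (τ : N → N) (g : F ≃ₐ[RatFunc K] F) (h : L₁ ≃ₐ[K₁] L₁),
      (∀ z, τ (algebraMap F N z) = algebraMap F N (g z)) →
      (∀ x, τ (algebraMap L₁ N x) = algebraMap L₁ N (h x)) → f h = α (γ g) := by
    intro τ g h hg hh
    apply AlgEquiv.ext
    intro x
    apply (algebraMap L L₁).injective
    apply (algebraMap L₁ N).injective
    rw [← hE.res, ← hh, ← c1, hg, hγ, c1]
  have hs : ∀ (τ : N ≃ₐ[L₁] N) (g : F ≃ₐ[RatFunc K] F),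
      (∀ z, τ (algebraMap F N z) = algebraMap F N (g z)) →
      τ (algebraMap (RatFunc K₁) N RatFunc.X) = algebraMap (RatFunc K₁) N RatFunc.X := by
    intro τ g hg
    rw [c2, hg, g.commutes]
  -- T4
  have T4 : ∀ g : F ≃ₐ[RatFunc K] F, ∃ τ : N ≃ₐ[RatFunc K₁] N, ∀ z, τ (algebraMap F N z) =
      algebraMap F N (g z) := by
    intro g
    obtain ⟨τ₀, hτ₀⟩ := ari (N := N) c3 (f.symm (α (γ g)))
    obtain ⟨g₀, hg₀⟩ := T1 τ₀
    have h1 := T3 τ₀ g₀ _ hg₀ hτ₀
    rw [MulEquiv.apply_symm_apply] at h1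
    have h2 : α (γ (g₀⁻¹ * g)) = 1 := by
      rw [map_mul, map_mul, h1, ← map_mul, ← map_mul, inv_mul_cancel, map_one, map_one]
    obtain ⟨τ₁, -, hτ₁⟩ := hgeo _ h2
    obtain ⟨τ₂, hτ₂⟩ := up (K₁ := K₁) τ₁ (hs τ₁ _ hτ₁)
    refine ⟨τ₀ * τ₂, fun z => ?_⟩
    rw [AlgEquiv.mul_apply, hτ₂, hτ₁, hg₀, ← AlgEquiv.mul_apply, mul_inv_cancel_left]
  obtain ⟨ρ, hρi, hρ⟩ := exists_rho (k := RatFunc K) (k₁ := RatFunc K₁) (F := F) (N := N)
  have hρs : Function.Surjective ρ := by
    intro g
    obtain ⟨τ, hτ⟩ := T4 g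
    obtain ⟨σ, hσ⟩ := res_F1 (k := RatFunc K) (F := F) τ
    refine ⟨σ, ?_⟩
    apply AlgEquiv.ext
    intro z
    apply (algebraMap F N).injective
    rw [← hρ, ← hσ]
    exact hτ z
  -- the constants
  have hmemL : ∀ l : L₁, algebraMap L₁ N l ∈ F1 (RatFunc K₁) F N := by
    intro l
    have halg : IsSeparable (F1 (RatFunc K₁) F N) (algebraMap L₁ N l) := by
      have h1 : IsSeparable K₁ (algebraMap L₁ N l) :=
        sep_map (Algebra.IsSeparable.isSeparable K₁ l)
      have h2 : IsSeparable (RatFunc K₁) (algebraMap L₁ N l) := h1.tower_top (RatFunc K₁)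
      exact h2.tower_top (F1 (RatFunc K₁) F N)
    obtain ⟨z, hz⟩ := fixedS (k := F1 (RatFunc K₁) F N) _ halg (fun τ => by
      let τ' : N ≃ₐ[RatFunc K₁] N := τ.restrictScalars (RatFunc K₁)
      obtain ⟨h, hh⟩ := T2 τ'
      have h1 := T3 τ' 1 h (fun z => τ.commutes (⟨_, mem_F1 z⟩ : F1 (RatFunc K₁) F N)) hh
      rw [map_one, map_one] at h1
      have h2 : h = 1 := (map_eq_one_iff f f.injective).1 h1
      have h3 := hh l
      rw [h2] at h3
      exact h3)
    rw [← hz]
    exact z.2
  let iL : Algebra L₁ (F1 (RatFunc K₁) F N) :=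
    ((algebraMap L₁ N).codRestrict (F1 (RatFunc K₁) F N) hmemL).toAlgebra
  have hiL : ∀ l : L₁, ((algebraMap L₁ (F1 (RatFunc K₁) F N) l : F1 (RatFunc K₁) F N) : N) =
      algebraMap L₁ N l := fun _ => rfl
  have tL : IsScalarTower L₁ (F1 (RatFunc K₁) F N) N := .of_algebraMap_eq fun _ => rfl
  have tK : IsScalarTower K₁ L₁ (F1 (RatFunc K₁) F N) := by
    refine .of_algebraMap_eq fun x => ?_
    apply Subtype.ext
    rw [hiL, ← IsScalarTower.algebraMap_apply K₁ L₁ N]
    rfl
  have hfd : FiniteDimensional (RatFunc K₁) (F1 (RatFunc K₁) F N) := fd_F1 (k := RatFunc K)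
  have hgal : IsGalois (RatFunc K₁) (F1 (RatFunc K₁) F N) := gal_F1 (k := RatFunc K)
  refine ⟨F1 (RatFunc K₁) F N, inferInstance, inferInstance, iL, inferInstance, inferInstance, tK,
    hfd, hgal, (MulEquiv.ofBijective ρ ⟨hρi, hρs⟩).trans γ, ?_, ?_⟩
  · intro σ x
    obtain ⟨τ, hτ⟩ := lift_F1 (k := RatFunc K) σ
    obtain ⟨h, hh⟩ := T2 τ
    have h1 := T3 τ (ρ σ) h (fun z => by rw [← hρ, ← hτ]) hh
    have h2 : h = f.symm (α (γ (ρ σ))) := by rw [← h1, MulEquiv.symm_apply_apply]
    apply Subtype.ext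
    rw [← hτ, hiL, hh, hiL, h2]
    rfl
  · intro y hy
    have hy1 : IsAlgebraic L₁ (y : N) := hy.algebraMap
    have hsF : Algebra.IsSeparable (RatFunc K₁) (F1 (RatFunc K₁) F N) := hgal.to_isSeparable
    have hy0 : IsSeparable (RatFunc K₁) y := hsF.isSeparable' y
    have hy2 : IsSeparable (RatFunc K₁) (algebraMap (F1 (RatFunc K₁) F N) N y) :=
      sep_map (k := RatFunc K₁) (B := F1 (RatFunc K₁) F N) (B' := N) hy0
    obtain ⟨l, hl⟩ := fixL (K₁ := K₁) c3 (y : N) hy1 hy2 (fun τ hτ => by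
      rw [← c3] at hτ
      obtain ⟨τ', hτ'⟩ := up (K₁ := K₁) τ hτ
      obtain ⟨g, hg⟩ := T1 τ'
      have h1 := T3 τ' g 1 hg (fun x => by
        rw [hτ']
        exact τ.commutes x)
      rw [map_one] at h1
      obtain ⟨τ₁, hτ₁a, hτ₁⟩ := hgeo g h1.symm
      obtain ⟨τ₂, hτ₂⟩ := up (K₁ := K₁) τ₁ (hs τ₁ _ hτ₁)
      have h2 := eq_F1 (k₁ := RatFunc K₁) (F := F) (N := N) (τ := τ') (τ' := τ₂)
        (fun z => by rw [hg, hτ₂, hτ₁]) (y : N) y.2
      rw [← hτ', h2, hτ₂]
      exact hτ₁a _ hy1)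
    exact ⟨l, Subtype.ext hl⟩

theorem fin {K L K₁ L₁ F N : Type} [Field K] [Field L] [Algebra K L]
    [FiniteDimensional K L] [Field K₁] [Field L₁] [Algebra K₁ L₁] [FiniteDimensional K₁ L₁]
    [IsGalois K₁ L₁] [Algebra K K₁] [Algebra L L₁] (f : (L₁ ≃ₐ[K₁] L₁) ≃* (L ≃ₐ[K] L))
    (hE : Ext2 K L K₁ L₁ f) [Field F] [Algebra (RatFunc K) F] [Algebra L F] [Algebra K F]
    [IsScalarTower K (RatFunc K) F] [IsScalarTower K L F]
    [FiniteDimensional (RatFunc K) F] [IsGalois (RatFunc K) F] {E : Type} [Group E]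
    (α : E →* (L ≃ₐ[K] L)) (γ : (F ≃ₐ[RatFunc K] F) ≃* E)
    (hγ : ∀ (σ : F ≃ₐ[RatFunc K] F) (x : L), σ (algebraMap L F x) =
      algebraMap L F (α (γ σ) x))
    (hregF : ∀ y : F, IsAlgebraic L y → y ∈ Set.range (algebraMap L F))
    [Field N] [IsAlgClosed N] [Algebra L₁ N] [Algebra (RatFunc L₁) N]
    [IsScalarTower L₁ (RatFunc L₁) N] :
    RegSol K₁ L₁ E ((f.symm : (L ≃ₐ[K] L) →* (L₁ ≃ₐ[K₁] L₁)).comp α) := by
  obtain ⟨iKL, iLF', t1, t2, fd', gal', hp⟩ := exists_ratL (K := K) (L := L) (F := F)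
  have hs : Transcendental L₁ (algebraMap (RatFunc L₁) N RatFunc.X) := by
    have h2 : Transcendental L₁ (RatFunc.X : RatFunc L₁) := by
      rw [← RatFunc.algebraMap_X]
      exact (transcendental_algebraMap_iff (IsFractionRing.injective L₁[X] (RatFunc L₁))).2
        (Polynomial.transcendental_X L₁)
    exact (transcendental_algebraMap_iff (algebraMap (RatFunc L₁) N).injective).2 h2
  obtain ⟨ΦK₁, hK₁a, hK₁X⟩ := ratHom ((algebraMap L₁ N).comp (algebraMap K₁ L₁)) _
    (fun p hp => eval_inj hs p hp)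
  obtain ⟨ΦL, hLa, hLX⟩ := ratHom ((algebraMap L₁ N).comp (algebraMap L L₁)) _
    (fun p hp => eval_inj hs p hp)
  have hXK₁ : Transcendental K₁ (RatFunc.X : RatFunc K₁) := by
    rw [← RatFunc.algebraMap_X]
    exact (transcendental_algebraMap_iff (IsFractionRing.injective K₁[X] (RatFunc K₁))).2
      (Polynomial.transcendental_X K₁)
  obtain ⟨j, hja, hjX⟩ := ratHom ((algebraMap K₁ (RatFunc K₁)).comp (algebraMap K K₁)) _
    (fun p hp => eval_inj hXK₁ p hp)
  let a1 : Algebra (RatFunc L) N := ΦL.toAlgebra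
  let φ : F →ₐ[RatFunc L] N := IsAlgClosed.lift
  let a2 : Algebra F N := φ.toRingHom.toAlgebra
  have s1 : IsScalarTower (RatFunc L) F N := .of_algebraMap_eq fun x => (φ.commutes x).symm
  let a3 : Algebra L N := ((algebraMap L₁ N).comp (algebraMap L L₁)).toAlgebra
  have s2 : IsScalarTower L L₁ N := .of_algebraMap_eq fun _ => rfl
  have s3 : IsScalarTower L (RatFunc L) N := .of_algebraMap_eq fun x => (hLa x).symm
  let a4 : Algebra (RatFunc K₁) N := ΦK₁.toAlgebra
  let a5 : Algebra K₁ N := ((algebraMap L₁ N).comp (algebraMap K₁ L₁)).toAlgebra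
  have s4 : IsScalarTower K₁ L₁ N := .of_algebraMap_eq fun _ => rfl
  have s5 : IsScalarTower K₁ (RatFunc K₁) N := .of_algebraMap_eq fun x => (hK₁a x).symm
  let a6 : Algebra (RatFunc K) (RatFunc K₁) := j.toAlgebra
  let a7 : Algebra (RatFunc K) N := (ΦK₁.comp j).toAlgebra
  have s6 : IsScalarTower (RatFunc K) (RatFunc K₁) N := .of_algebraMap_eq fun _ => rfl
  have c1 : ∀ x : L, algebraMap F N (algebraMap L F x) = algebraMap L₁ N (algebraMap L L₁ x) := by
    intro x
    rw [IsScalarTower.algebraMap_apply L (RatFunc L) F,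
      ← IsScalarTower.algebraMap_apply (RatFunc L) F N]
    exact hLa x
  have hXF : algebraMap (RatFunc K) F RatFunc.X = algebraMap (RatFunc L) F RatFunc.X := by
    have h2 : (RatFunc.X : RatFunc L) = algebraMap (RatFunc K) (RatFunc L) RatFunc.X := by
      rw [← RatFunc.algebraMap_X, ← RatFunc.algebraMap_X, hp, map_X]
    rw [h2, ← IsScalarTower.algebraMap_apply]
  have c2' : algebraMap F N (algebraMap (RatFunc K) F RatFunc.X) =
      algebraMap (RatFunc L₁) N RatFunc.X := by
    rw [hXF, ← IsScalarTower.algebraMap_apply (RatFunc L) F N]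
    exact hLX
  have c3 : algebraMap (RatFunc K₁) N RatFunc.X = algebraMap (RatFunc L₁) N RatFunc.X := hK₁X
  have s7 : IsScalarTower (RatFunc K) F N := by
    have h1 : (algebraMap F N).comp (algebraMap (RatFunc K) F) = ΦK₁.comp j := by
      apply ratFunc_hom_ext
      · intro k
        rw [RingHom.comp_apply, RingHom.comp_apply, hja,
          ← IsScalarTower.algebraMap_apply K (RatFunc K) F,
          IsScalarTower.algebraMap_apply K L F, c1, RingHom.comp_apply, hK₁a, RingHom.comp_apply,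
          hE.comm]
      · rw [RingHom.comp_apply, RingHom.comp_apply, hjX, hK₁X, c2']
    exact .of_algebraMap_eq fun x => (RingHom.congr_fun h1 x).symm
  refine core (N := N) f hE α γ hγ c1 (c3.trans c2'.symm) c3 ?_
  intro g hg
  obtain ⟨g', hg'⟩ := lift_ker hp (α.comp (γ : (F ≃ₐ[RatFunc K] F) →* E)) hγ g hg
  have hsL : Transcendental L₁ (algebraMap (RatFunc L) N RatFunc.X) := by
    have h1 : algebraMap (RatFunc L) N RatFunc.X = algebraMap (RatFunc L₁) N RatFunc.X := hLX
    rw [h1]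
    exact hs
  obtain ⟨τ, hτa, hτ⟩ := geo (L := L) (L₁ := L₁) (F := F) (N := N) hregF hsL g'
  exact ⟨τ, hτa, fun z => by rw [hτ, hg']⟩

/-- Base change of regular solutions. -/
theorem t_bchp : Pool.Agent.N70.PP.St_bchp := by
  intro K L K₁ L₁ _ _ _ _ _ _ _ _ _ _ _ _ _ f hE E _ _ α hreg
  obtain ⟨F, iF, iRF, iLF, iKF, tKRF, tKLF, fdF, galF, γ, hγ, hregF⟩ := hreg
  exact fin (N := AlgebraicClosure (RatFunc L₁)) f hE α γ hγ hregF

end Pool.Agent.N297.PP
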